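import Mathlib
import Pool.Agent.H823.BG.Main

/-!
# MP_c86656_gt, Q1: Hausdorff convergence of Lagrangians under `J`-adapted metrics

For every `J`-adapted metric `max d d'` on a collection `𝓛` of closed connected Lagrangian
submanifolds of an almost Kähler manifold which is closed, or has bounded sectional curvature and
injectivity radius bounded below, convergence for `max d d'` implies convergence for the Hausdorff
distance on the Lagrangians with `‖B_L‖ ≤ Lam`, in every dimension.  No tameness, completeness or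
convexity at infinity is assumed.
-/

open scoped Topology ContDiff Manifold
open Set Metric Filter

namespace Pool.Agent.Results.MP_c86656_gt.HausdorffConvergence

open Pool.Agent.H823.HC

universe u v

/-- Let `M` be an almost Kähler manifold of positive dimension which is compact, or whose metric
`g_J` has bounded sectional curvature and injectivity radius bounded below by a positive constant.
Let `𝓛` be a collection of closed connected Lagrangian submanifolds of `M`, and let `𝓕, 𝓕'` be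
subcollections of `𝓛` such that the intersection of the closures of their unions is discrete.  If
`d`, `d'` are pseudometrics on `𝓛` which are `J`-adapted with respect to `𝓕`, `𝓕'`, if
`L n, L₀ ∈ 𝓛` satisfy `‖B‖ ≤ Lam` and `max (d (L n) L₀) (d' (L n) L₀) → 0`, then the Hausdorff
distance from `L n` to `L₀` converges to `0`. -/
theorem result (V : Type u) [NormedAddCommGroup V] [InnerProductSpace ℝ V]
    [FiniteDimensional ℝ V] [Nontrivial V] (M : Type v) [MetricSpace M] [ChartedSpace V M]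
    [IsManifold 𝓘(ℝ, V) ∞ M] (A : AlmostKahler V M)
    (hA : CompactSpace M ∨ ∃ K r : ℝ, 0 < r ∧ A.SecBound K ∧ A.InjRad r)
    (𝓛 𝓕 𝓕' : Set (Set M)) (d d' : Set M → Set M → ℝ) (h𝓛 : ∀ L ∈ 𝓛, A.IsLagr L)
    (h𝓕 : 𝓕 ⊆ 𝓛) (h𝓕' : 𝓕' ⊆ 𝓛)
    (hdisc : DiscreteTopology ↥(closure (⋃₀ 𝓕) ∩ closure (⋃₀ 𝓕')))
    (hd : IsPseudometricOn 𝓛 d) (hd' : IsPseudometricOn 𝓛 d') (hJ : A.JAdapted 𝓛 𝓕 d)
    (hJ' : A.JAdapted 𝓛 𝓕' d') (Lam : ℝ) (L : ℕ → Set M) (L₀ : Set M)
    (hL : ∀ n, L n ∈ 𝓛 ∧ A.SFFBound (L n) Lam) (hL₀ : L₀ ∈ 𝓛 ∧ A.SFFBound L₀ Lam)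
    (hconv : Tendsto (fun n => max (d (L n) L₀) (d' (L n) L₀)) atTop (𝓝 0)) :
    Tendsto (fun n => hausdorffDist (L n) L₀) atTop (𝓝 0) :=
  main V M A (hA.elim (fun h => main_COMP V M A h) fun ⟨K, r, hr, hK, hI⟩ =>
    Pool.Agent.H823.BG.main V M A K r hr hK hI) 𝓛 𝓕 𝓕' d d' h𝓛 h𝓕 h𝓕' hdisc hd hd' hJ hJ'
    Lam L L₀ hL hL₀ hconv

end Pool.Agent.Results.MP_c86656_gt.HausdorffConvergence
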